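import Pool.Agent.Helper28.LV.StL

/-!
Project LV, module M2B: the trace relations for `EGf`.
-/

set_option autoImplicit false

namespace Pool.Agent.Helper66.LV

open Pool.Agent.Helper14.CV Pool.Agent.Helper28.WK Pool.Agent.Helper28.LV

private lemma deg_lt {K : Type} [Field K] (a : ℕ) (α β γ δ : K) :
    ((Polynomial.C α * Polynomial.X + Polynomial.C β) ^ a *
      (Polynomial.C γ * Polynomial.X + Polynomial.C δ) ^ a : Polynomial K).natDegree <
      2 * a + 1 := by
  have h1 : ((Polynomial.C α * Polynomial.X + Polynomial.C β) ^ a *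
      (Polynomial.C γ * Polynomial.X + Polynomial.C δ) ^ a : Polynomial K).natDegree ≤
      a * 1 + a * 1 := by
    refine Polynomial.natDegree_mul_le.trans (Nat.add_le_add ?_ ?_)
    · exact Polynomial.natDegree_pow_le.trans
        (Nat.mul_le_mul_left _ Polynomial.natDegree_linear_le)
    · exact Polynomial.natDegree_pow_le.trans
        (Nat.mul_le_mul_left _ Polynomial.natDegree_linear_le)
  omega

/-- homogenisation over a field -/
private lemma hom_field {K F : Type} [Field K] [Field F] [Algebra K F] (a : ℕ) (α β γ δ : K)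
    (u v : F) (hv : v ≠ 0) :
    (algebraMap K F α * u + algebraMap K F β * v) ^ a *
      (algebraMap K F γ * u + algebraMap K F δ * v) ^ a =
    ∑ j ∈ Finset.range (2 * a + 1), algebraMap K F
      (((Polynomial.C α * Polynomial.X + Polynomial.C β) ^ a *
        (Polynomial.C γ * Polynomial.X + Polynomial.C δ) ^ a : Polynomial K).coeff j) *
        (u ^ j * v ^ (2 * a - j)) := by
  have h := Polynomial.aeval_eq_sum_range' (deg_lt a α β γ δ) (u / v)
  simp only [map_mul, map_pow, map_add, Polynomial.aeval_C, Polynomial.aeval_X] at h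
  have e1 : (algebraMap K F α * u + algebraMap K F β * v) ^ a *
      (algebraMap K F γ * u + algebraMap K F δ * v) ^ a =
      v ^ (2 * a) * ((algebraMap K F α * (u / v) + algebraMap K F β) ^ a *
        (algebraMap K F γ * (u / v) + algebraMap K F δ) ^ a) := by
    have x1 : algebraMap K F α * u + algebraMap K F β * v =
        v * (algebraMap K F α * (u / v) + algebraMap K F β) := by
      field_simp
    have x2 : algebraMap K F γ * u + algebraMap K F δ * v =
        v * (algebraMap K F γ * (u / v) + algebraMap K F δ) := by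
      field_simp
    rw [x1, x2, mul_pow, mul_pow, two_mul, pow_add]
    ring
  rw [e1, h, Finset.mul_sum]
  refine Finset.sum_congr rfl fun j hj => ?_
  have hj' : j ≤ 2 * a := Nat.lt_succ_iff.1 (Finset.mem_range.1 hj)
  have e2 : v ^ (2 * a) = v ^ j * v ^ (2 * a - j) := by
    rw [← pow_add]; congr 1; omega
  rw [Algebra.smul_def, e2, div_pow]
  field_simp

/-- homogenisation over a polynomial ring -/
private lemma hom_poly {K : Type} [Field K] (a : ℕ) (α β γ δ : K)
    (u v : Polynomial K) (hv : v ≠ 0) :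
    (Polynomial.C α * u + Polynomial.C β * v) ^ a *
      (Polynomial.C γ * u + Polynomial.C δ * v) ^ a =
    ∑ j ∈ Finset.range (2 * a + 1), Polynomial.C
      (((Polynomial.C α * Polynomial.X + Polynomial.C β) ^ a *
        (Polynomial.C γ * Polynomial.X + Polynomial.C δ) ^ a : Polynomial K).coeff j) *
        (u ^ j * v ^ (2 * a - j)) := by
  have hinj := IsFractionRing.injective (Polynomial K) (FractionRing (Polynomial K))
  apply hinj
  have hv' : algebraMap (Polynomial K) (FractionRing (Polynomial K)) v ≠ 0 := by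
    intro h0
    exact hv (hinj (by rw [h0, map_zero]))
  have h := hom_field (K := K) (F := FractionRing (Polynomial K)) a α β γ δ
    (algebraMap (Polynomial K) (FractionRing (Polynomial K)) u)
    (algebraMap (Polynomial K) (FractionRing (Polynomial K)) v) hv'
  have hC : ∀ x : K, algebraMap K (FractionRing (Polynomial K)) x =
      algebraMap (Polynomial K) (FractionRing (Polynomial K)) (Polynomial.C x) := fun x => by
    rw [IsScalarTower.algebraMap_apply K (Polynomial K) (FractionRing (Polynomial K))]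
    rfl
  simp only [map_mul, map_pow, map_add, map_sum]
  simp only [hC] at h
  exact h

/-- the general form of the relation -/
private lemma rel {p : ℕ} [Fact p.Prime] (a : ℕ) (Φ : ℤ → ℤ → ℕ → ℤ_[p])
    (M : ℕ → ℕ → Polynomial ℤ) (c : ℕ → ℚ_[p]) (Q : ℕ → Polynomial ℚ_[p])
    (v1 v2 w1 w2 : ℕ → ℤ)
    (hM : ∀ i j : ℕ, j ≤ 2 * a → (M i j).natDegree < 2 * a + 1)
    (hQ : ∀ i : ℕ, Q i = ∑ j ∈ Finset.range (2 * a + 1),
      Polynomial.C (c j) * (M i j).map (Int.castRingHom ℚ_[p]))
    (hrel : ∀ j : ℕ, j ≤ 2 * a → (∑ i ∈ Finset.range p, pr Φ (M i j) (w1 i) (w2 i)) -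
      (∑ i ∈ Finset.range p, pr Φ (M i j) (v1 i) (v2 i)) = 0) :
    ∑ i ∈ Finset.range p, ∑ s ∈ Finset.range (2 * a + 1),
      (Q i).coeff s * ((Φ (w1 i) (w2 i) s - Φ (v1 i) (v2 i) s : ℤ_[p]) : ℚ_[p]) = 0 := by
  have h1 : ∀ j : ℕ, j ≤ 2 * a → ∑ i ∈ Finset.range p, ∑ s ∈ Finset.range (2 * a + 1),
      (((M i j).coeff s : ℤ) : ℚ_[p]) *
        ((Φ (w1 i) (w2 i) s - Φ (v1 i) (v2 i) s : ℤ_[p]) : ℚ_[p]) = 0 := by
    intro j hj
    have h2 := hrel j hj
    rw [← Finset.sum_sub_distrib] at h2
    have h3 : ∀ i ∈ Finset.range p, pr Φ (M i j) (w1 i) (w2 i) - pr Φ (M i j) (v1 i) (v2 i) =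
        ∑ s ∈ Finset.range (2 * a + 1), (((M i j).coeff s : ℤ) : ℤ_[p]) *
          (Φ (w1 i) (w2 i) s - Φ (v1 i) (v2 i) s) := by
      intro i _
      rw [pr_eq_sum Φ (M i j) (2 * a + 1) (hM i j hj)]
      simp only [Finset.sum_apply, Pi.smul_apply, cp]
      rw [← Finset.sum_sub_distrib]
      refine Finset.sum_congr rfl fun s _ => ?_
      rw [zsmul_eq_mul, zsmul_eq_mul]
      ring
    rw [Finset.sum_congr rfl h3] at h2
    have h4 := congrArg (fun z : ℤ_[p] => (z : ℚ_[p])) h2
    simp only [PadicInt.coe_zero] at h4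
    rw [← h4]
    rw [PadicInt.coe_sum]
    refine Finset.sum_congr rfl fun i _ => ?_
    rw [PadicInt.coe_sum]
    refine Finset.sum_congr rfl fun s _ => ?_
    rw [PadicInt.coe_mul, PadicInt.coe_intCast]
  have h5 : ∀ i s : ℕ, (Q i).coeff s = ∑ j ∈ Finset.range (2 * a + 1),
      c j * (((M i j).coeff s : ℤ) : ℚ_[p]) := by
    intro i s
    rw [hQ i, Polynomial.finsetSum_coeff]
    refine Finset.sum_congr rfl fun j _ => ?_
    rw [Polynomial.coeff_C_mul, Polynomial.coeff_map]
    rfl
  calc ∑ i ∈ Finset.range p, ∑ s ∈ Finset.range (2 * a + 1),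
      (Q i).coeff s * ((Φ (w1 i) (w2 i) s - Φ (v1 i) (v2 i) s : ℤ_[p]) : ℚ_[p])
      = ∑ i ∈ Finset.range p, ∑ s ∈ Finset.range (2 * a + 1), ∑ j ∈ Finset.range (2 * a + 1),
        c j * ((((M i j).coeff s : ℤ) : ℚ_[p]) *
          ((Φ (w1 i) (w2 i) s - Φ (v1 i) (v2 i) s : ℤ_[p]) : ℚ_[p])) := by
        refine Finset.sum_congr rfl fun i _ => Finset.sum_congr rfl fun s _ => ?_
        rw [h5, Finset.sum_mul]
        exact Finset.sum_congr rfl fun j _ => by ring
    _ = ∑ i ∈ Finset.range p, ∑ j ∈ Finset.range (2 * a + 1), ∑ s ∈ Finset.range (2 * a + 1),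
        c j * ((((M i j).coeff s : ℤ) : ℚ_[p]) *
          ((Φ (w1 i) (w2 i) s - Φ (v1 i) (v2 i) s : ℤ_[p]) : ℚ_[p])) :=
        Finset.sum_congr rfl fun i _ => Finset.sum_comm
    _ = ∑ j ∈ Finset.range (2 * a + 1), ∑ i ∈ Finset.range p, ∑ s ∈ Finset.range (2 * a + 1),
        c j * ((((M i j).coeff s : ℤ) : ℚ_[p]) *
          ((Φ (w1 i) (w2 i) s - Φ (v1 i) (v2 i) s : ℤ_[p]) : ℚ_[p])) := Finset.sum_comm
    _ = 0 := by
        refine Finset.sum_eq_zero fun j hj => ?_
        have hj' : j ≤ 2 * a := Nat.lt_succ_iff.1 (Finset.mem_range.1 hj)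
        simp only [← Finset.mul_sum]
        rw [h1 j hj', mul_zero]

/-- M2B -/
theorem hM2B : StM2B := by
  intro p hp a Φ hΦ v1 v2 w1 w2 hv hw α β γ δ
  constructor
  · unfold EGf
    refine rel a Φ (fun i j => (Polynomial.X - Polynomial.C (i : ℤ)) ^ j)
      (fun j => ((Polynomial.C α * Polynomial.X + Polynomial.C β) ^ a *
        (Polynomial.C γ * Polynomial.X + Polynomial.C δ) ^ a : Polynomial ℚ_[p]).coeff j)
      (fun i => (Polynomial.C α * Polynomial.X + Polynomial.C (β - i * α)) ^ a *
        (Polynomial.C γ * Polynomial.X + Polynomial.C (δ - i * γ)) ^ a)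
      (fun i => v1 + i * v2) (fun _ => v2) (fun i => w1 + i * w2) (fun _ => w2) ?_ ?_ ?_
    · intro i j hj
      refine lt_of_le_of_lt Polynomial.natDegree_pow_le ?_
      rw [Polynomial.natDegree_X_sub_C]
      omega
    · intro i
      have h := hom_poly a α β γ δ (Polynomial.X - Polynomial.C ((i : ℕ) : ℚ_[p])) 1 one_ne_zero
      have e1 : Polynomial.C α * (Polynomial.X - Polynomial.C ((i : ℕ) : ℚ_[p])) +
          Polynomial.C β * 1 = Polynomial.C α * Polynomial.X + Polynomial.C (β - i * α) := by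
        rw [Polynomial.C_sub, Polynomial.C_mul]; ring
      have e2 : Polynomial.C γ * (Polynomial.X - Polynomial.C ((i : ℕ) : ℚ_[p])) +
          Polynomial.C δ * 1 = Polynomial.C γ * Polynomial.X + Polynomial.C (δ - i * γ) := by
        rw [Polynomial.C_sub, Polynomial.C_mul]; ring
      rw [e1, e2] at h
      refine h.trans ?_
      refine Finset.sum_congr rfl fun j _ => ?_
      rw [one_pow, mul_one, Polynomial.map_pow, Polynomial.map_sub, Polynomial.map_X,
        Polynomial.map_C]
      simp
    · intro j hj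
      have h := (hΦ.tt j hj).diff hw hv
      simpa using h
  · unfold EGf
    refine rel a Φ (fun i j => Polynomial.X ^ j *
        (1 - Polynomial.C ((p : ℤ) ^ 0 * i) * Polynomial.X) ^ (2 * a - j))
      (fun j => ((Polynomial.C α * Polynomial.X + Polynomial.C β) ^ a *
        (Polynomial.C γ * Polynomial.X + Polynomial.C δ) ^ a : Polynomial ℚ_[p]).coeff j)
      (fun i => (Polynomial.C (α - i * β) * Polynomial.X + Polynomial.C β) ^ a *
        (Polynomial.C (γ - i * δ) * Polynomial.X + Polynomial.C δ) ^ a)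
      (fun _ => v1) (fun i => i * v1 + v2) (fun _ => w1) (fun i => i * w1 + w2) ?_ ?_ ?_
    · intro i j hj
      have h1 : ((1 : Polynomial ℤ) - Polynomial.C ((p : ℤ) ^ 0 * i) * Polynomial.X).natDegree ≤
          1 := by
        refine (Polynomial.natDegree_sub_le _ _).trans ?_
        rw [Polynomial.natDegree_one]
        refine max_le (Nat.zero_le _) ?_
        refine Polynomial.natDegree_mul_le.trans ?_
        rw [Polynomial.natDegree_C, Polynomial.natDegree_X]
      have h2 : (Polynomial.X ^ j *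
        ((1 : Polynomial ℤ) - Polynomial.C ((p : ℤ) ^ 0 * i) * Polynomial.X) ^ (2 * a - j)).natDegree ≤
          j + (2 * a - j) * 1 := by
        refine Polynomial.natDegree_mul_le.trans (Nat.add_le_add ?_ ?_)
        · rw [Polynomial.natDegree_X_pow]
        · exact Polynomial.natDegree_pow_le.trans (Nat.mul_le_mul_left _ h1)
      omega
    · intro i
      have hne : (1 : Polynomial ℚ_[p]) - Polynomial.C ((i : ℕ) : ℚ_[p]) * Polynomial.X ≠ 0 := by
        intro h0
        have h1 := congrArg (fun q : Polynomial ℚ_[p] => q.coeff 0) h0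
        simp at h1
      have h := hom_poly a α β γ δ Polynomial.X
        (1 - Polynomial.C ((i : ℕ) : ℚ_[p]) * Polynomial.X) hne
      have e1 : Polynomial.C α * Polynomial.X +
          Polynomial.C β * (1 - Polynomial.C ((i : ℕ) : ℚ_[p]) * Polynomial.X) =
          Polynomial.C (α - i * β) * Polynomial.X + Polynomial.C β := by
        rw [Polynomial.C_sub, Polynomial.C_mul]; ring
      have e2 : Polynomial.C γ * Polynomial.X +
          Polynomial.C δ * (1 - Polynomial.C ((i : ℕ) : ℚ_[p]) * Polynomial.X) =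
          Polynomial.C (γ - i * δ) * Polynomial.X + Polynomial.C δ := by
        rw [Polynomial.C_sub, Polynomial.C_mul]; ring
      rw [e1, e2] at h
      refine h.trans ?_
      refine Finset.sum_congr rfl fun j _ => ?_
      simp [Polynomial.map_mul, Polynomial.map_pow, Polynomial.map_sub]
    · intro j hj
      have h := (hΦ.ss j hj).diff hw hv
      simpa using h

end Pool.Agent.Helper66.LV
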